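import Pool.Agent.Q315.FE.Central

/-!
# Profinite rigidity and finite extensions

`MP_305fdd_al`, Q1, asks whether all lattices in `PSL(2, ℝ)` and `PSL(2, ℂ)` are profinitely rigid.
Every lattice `Γ` is a finite extension of a torsion-free one `N` (Selberg), on which it acts
faithfully. We show that the torsion-free case almost decides the general one.

* If `N` has finite genus (for example, if it is profinitely rigid), and the groups in its genus are
  centreless with only finitely many conjugacy classes of finite subgroups in their outer automorphism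
  groups, then `Γ` has finite genus: up to isomorphism there are only finitely many finitely generated
  residually finite groups with the same finite quotients as `Γ`.
* If `N ≅ D` is profinitely rigid, centreless and the torsion of `Out(D)` injects into the outer
  automorphism group of the profinite completion of `D`, then the groups in the genus of `Γ` are, up
  to isomorphism, groups between `Inn(D)` and `Aut(D)`. So `Γ` is profinitely rigid in the absolute
  sense if and only if it is so among the groups between `Inn(D)` and `Aut(D)`. It is if all subgroups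
  of `Out(D)` isomorphic to `Γ / N` are conjugate. If `Out(D)` is finite, then `Aut(D)` is rigid.

Proof. Let `Λ` be in the genus of `Γ`. A compactness argument identifies `Λ → F` and `Γ → F = Γ / N`
in arbitrarily large finite quotients of `Λ` and `Γ`, so the kernel is in the genus of `N`. An element
`c` of `Λ` that centralizes the kernel coincides in a finite quotient with an element `g` of `Γ` that
centralizes `N` modulo a large subgroup. The class of `g` modulo `N` does not depend on the quotient;
so `g` acts on `N` by an automorphism that is inner modulo each normal subgroup of finite index.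
-/

set_option autoImplicit false

namespace Pool.Agent.Results.MP_305fdd_al.FiniteExtensions

open Function Pool.Agent.Q279.PR Pool.Agent.Q315.FE

/-- `G` is a member of the genus of `H`: it is finitely generated, residually finite and has the
same finite quotients as `H` -/
def InGenus (G H : Type) [Group G] [Group H] : Prop := Group.FG G ∧ RF G ∧ SFQ G H

/-- the genus of `H` consists of finitely many groups up to isomorphism -/
def FiniteGenus (H : Type) [Group H] : Prop :=
  ∃ (ι : Type) (_ : Finite ι) (M : ι → Type) (_ : ∀ i, Group (M i)),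
    (∀ i, InGenus (M i) H) ∧ ∀ (G : Type) [Group G], InGenus G H → ∃ i, Nonempty (G ≃* M i)

theorem InGenus.congr {G G' H : Type} [Group G] [Group G'] [Group H] (h : InGenus G H)
    (e : G ≃* G') : InGenus G' H :=
  ⟨fg_congr e h.1, h.2.1.of_injective e.symm.toMonoidHom e.symm.injective,
    (SFQ.of_equiv e.symm).trans h.2.2⟩

theorem finiteGenus_of_cover {H : Type} [Group H] {ι : Type} [Finite ι] (M : ι → Type)
    [hM : ∀ i, Group (M i)]
    (h : ∀ (G : Type) [Group G], InGenus G H → ∃ i, Nonempty (G ≃* M i)) : FiniteGenus H := by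
  refine ⟨{i // InGenus (M i) H}, inferInstance, fun i => M i.1, fun i => hM i.1, fun i => i.2, ?_⟩
  intro G _ hG
  obtain ⟨i, ⟨e⟩⟩ := h G hG
  exact ⟨⟨i, hG.congr e⟩, ⟨e⟩⟩

theorem ker_inGenus {G H F : Type} [Group G] [Group H] [Group F] [Finite F] (hG : Group.FG G)
    {p : G →* F} {q : H →* F} (hH : InGenus H G) (h : Compat p q) : InGenus q.ker p.ker :=
  ⟨fg_ker hH.1 q, hH.2.1.of_injective q.ker.subtype q.ker.subtype_injective, h.sfq hG hH.1⟩

/-- finite genus for finite extensions -/
theorem finite_genus {Γ D F : Type} [Group Γ] [Group D] [Group F] [Finite F]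
    (hΓ : Group.FG Γ) (p : Γ →* F) (hp : Surjective p) (e : p.ker ≃* D) (hD : FiniteGenus D)
    (hgood : ∀ (E : Type) [Group E], InGenus E D → Subgroup.center E = ⊥ ∧ FinConj (Out E)) :
    FiniteGenus Γ := by
  obtain ⟨ι, _, M, _, hM, hM2⟩ := hD
  have key := fun i => count (F := F) (hgood (M i) (hM i)).1 (hgood (M i) (hM i)).2
  choose R hR hR2 using key
  have : ∀ i, Finite (R i) := fun i => hR i
  refine finiteGenus_of_cover (ι := Σ i, R i) (fun x => x.2.1) ?_
  intro Λ _ hΛ
  obtain ⟨q, hq, hc⟩ := matching hΓ hΛ.1 hΛ.2.2 p hp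
  have h1 : InGenus q.ker D := by
    have := ker_inGenus hΓ hΛ hc
    exact ⟨this.1, this.2.1, this.2.2.trans (SFQ.of_equiv e)⟩
  obtain ⟨i, h2⟩ := hM2 q.ker h1
  obtain ⟨r, hr, h3⟩ := hR2 i Λ q hq h2
  exact ⟨⟨i, r, hr⟩, h3⟩

theorem center_congr {E E' : Type} [Group E] [Group E'] (e : E ≃* E')
    (h : Subgroup.center E = ⊥) : Subgroup.center E' = ⊥ := by
  rw [eq_bot_iff]
  intro z hz
  rw [Subgroup.mem_center_iff] at hz
  have h1 : e.symm z ∈ Subgroup.center E := by
    rw [Subgroup.mem_center_iff]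
    intro g
    apply e.injective
    rw [map_mul, map_mul, MulEquiv.apply_symm_apply, hz]
  rw [h, Subgroup.mem_bot, map_eq_one_iff e.symm e.symm.injective] at h1
  exact h1

/-- the genus of a finite extension -/
theorem genus_embeds' {Γ D F : Type} [Group Γ] [Group D] [Group F] [Finite F]
    (hΓ : Group.FG Γ) (p : Γ →* F) (hp : Surjective p) (e : p.ker ≃* D)
    (hDc : ∀ (E : Type) [Group E], InGenus E D → Subgroup.center E = ⊥) (hG : Grossman D)
    (hcent : Subgroup.centralizer (p.ker : Set Γ) = ⊥) {Λ : Type} [Group Λ] (hΛ : InGenus Λ Γ) :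
    ∃ (E : Type) (_ : Group E), InGenus E D ∧ ∀ (E' : Type) [Group E'], Nonempty (E' ≃* E) →
      ∃ P : Subgroup (Out E'), Nonempty (P ≃* F) ∧ Nonempty (Λ ≃* Pre P) := by
  obtain ⟨q, hq, hc⟩ := matching hΓ hΛ.1 hΛ.2.2 p hp
  have h1 := ker_inGenus hΓ hΛ hc
  have h2 : InGenus q.ker D := ⟨h1.1, h1.2.1, h1.2.2.trans (SFQ.of_equiv e)⟩
  refine ⟨q.ker, inferInstance, h2, ?_⟩
  rintro E' _ ⟨e'⟩
  exact embeds hq e'.symm (centralizer_trivial hp hc e e'.symm
    (center_congr e'.symm (hDc _ h2)) hG hcent)

/-- the genus of a finite extension of a rigid group -/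
theorem genus_embeds {Γ D F : Type} [Group Γ] [Group D] [Group F] [Finite F]
    (hΓ : Group.FG Γ) (p : Γ →* F) (hp : Surjective p) (e : p.ker ≃* D) (hD : Rigid D)
    (hDc : Subgroup.center D = ⊥) (hG : Grossman D)
    (hcent : Subgroup.centralizer (p.ker : Set Γ) = ⊥) {Λ : Type} [Group Λ] (hΛ : InGenus Λ Γ) :
    ∃ P : Subgroup (Out D), Nonempty (P ≃* F) ∧ Nonempty (Λ ≃* Pre P) := by
  obtain ⟨E, _, h1, h2⟩ := genus_embeds' hΓ p hp e (fun E _ hE => by
    obtain ⟨e'⟩ := hD E hE.1 hE.2.1 hE.2.2
    exact center_congr e'.symm hDc) hG hcent hΛ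
  obtain ⟨e'⟩ := hD E h1.1 h1.2.1 h1.2.2
  exact h2 D ⟨e'.symm⟩

/-- automorphism groups of finitely generated residually finite groups are residually finite -/
theorem rf_aut {D : Type} [Group D] (hfg : Group.FG D) (hR : RF D) : RF (MulAut D) := by
  intro α hα
  have h1 : ∃ d, α d ≠ d := by
    by_contra h
    push Not at h
    exact hα (MulEquiv.ext h)
  obtain ⟨d, hd⟩ := h1
  obtain ⟨Q, _, _, φ, hφ⟩ := hR (α d * d⁻¹) fun h => hd (mul_inv_eq_one.mp h)
  have hfin := finite_hom hfg Q
  let ρ : MulAut D →* Equiv.Perm (D →* Q) :=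
    { toFun := fun β =>
        { toFun := fun f => f.comp β⁻¹.toMonoidHom
          invFun := fun f => f.comp β.toMonoidHom
          left_inv := fun f => by
            ext x
            change f (β⁻¹ (β x)) = f x
            rw [MulAut.inv_apply_self]
          right_inv := fun f => by
            ext x
            change f (β (β⁻¹ x)) = f x
            rw [MulAut.apply_inv_self] }
      map_one' := by
        ext f x
        rfl
      map_mul' := fun β γ => by
        ext f x
        change f ((β * γ)⁻¹ x) = f (γ⁻¹ (β⁻¹ x))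
        rw [mul_inv_rev]
        rfl }
  refine ⟨Equiv.Perm (D →* Q), inferInstance, inferInstance, ρ, ?_⟩
  intro h
  have h2 : φ.comp α⁻¹.toMonoidHom = φ := congrArg (fun σ : Equiv.Perm (D →* Q) => σ φ) h
  have h3 := DFunLike.congr_fun h2 (α d)
  change φ (α⁻¹ (α d)) = φ (α d) at h3
  rw [MulAut.inv_apply_self] at h3
  apply hφ
  rw [map_mul, map_inv, ← h3, mul_inv_cancel]

/-- the genus of `Pre P` -/
theorem pre_genus {D : Type} [Group D] (hfg : Group.FG D) (hD : Rigid D)
    (hDc : Subgroup.center D = ⊥) (hG : Grossman D) (P : Subgroup (Out D)) (hP : Finite P)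
    {Λ : Type} [Group Λ] (hΛ : InGenus Λ (Pre P)) :
    ∃ P' : Subgroup (Out D), Nonempty (P' ≃* P) ∧ Nonempty (Λ ≃* Pre P') :=
  genus_embeds (fg_pre hDc hfg P hP) (preQ P) (preQ_surjective P) (preKer hDc P) hD hDc hG
    (pre_centralizer hDc P) hΛ

theorem pre_rigid_iff {D : Type} [Group D] (hfg : Group.FG D) (hRF : RF D) (hD : Rigid D)
    (hDc : Subgroup.center D = ⊥) (hG : Grossman D) (P : Subgroup (Out D)) (hP : Finite P) :
    Rigid (Pre P) ↔ ∀ P' : Subgroup (Out D), Nonempty (P' ≃* P) → SFQ (Pre P') (Pre P) →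
      Nonempty (Pre P' ≃* Pre P) := by
  constructor
  · rintro h P' ⟨e⟩ h2
    have hP' : Finite P' := Finite.of_equiv _ e.symm.toEquiv
    exact h (Pre P') (fg_pre hDc hfg P' hP')
      ((rf_aut hfg hRF).of_injective (Pre P').subtype (Pre P').subtype_injective) h2
  · intro h Λ _ h1 h2 h3
    obtain ⟨P', hP', ⟨e⟩⟩ := pre_genus hfg hD hDc hG P hP ⟨h1, h2, h3⟩
    obtain ⟨e'⟩ := h P' hP' ((SFQ.of_equiv e.symm).trans h3)
    exact ⟨e.trans e'⟩

theorem aut_rigid {D : Type} [Group D] (hfg : Group.FG D) (hRF : RF D) (hD : Rigid D)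
    (hDc : Subgroup.center D = ⊥) (hG : Grossman D) (hO : Finite (Out D)) :
    Rigid (MulAut D) := by
  have e : Pre (⊤ : Subgroup (Out D)) ≃* MulAut D :=
    (MulEquiv.subgroupCongr (Subgroup.comap_top _)).trans Subgroup.topEquiv
  have h1 : Rigid (Pre (⊤ : Subgroup (Out D))) := by
    rw [pre_rigid_iff hfg hRF hD hDc hG ⊤ inferInstance]
    rintro P' ⟨e'⟩ -
    have h2 : P' = ⊤ := by
      apply Subgroup.eq_top_of_card_eq
      rw [Nat.card_congr e'.toEquiv, Subgroup.card_top]
    rw [h2]
    exact ⟨MulEquiv.refl _⟩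
  intro Λ _ h2 h3 h4
  obtain ⟨e'⟩ := h1 Λ h2 h3 (h4.trans (SFQ.of_equiv e.symm))
  exact ⟨e'.trans e⟩

/-- **Profinite rigidity and finite extensions.** -/
theorem result :
    (∀ (D : Type) [Group D], FiniteGenus D →
      (∀ (E : Type) [Group E], InGenus E D → Subgroup.center E = ⊥ ∧ FinConj (Out E)) →
      ∀ (Γ : Type) [Group Γ] (N : Subgroup Γ) [N.Normal] [N.FiniteIndex],
        Group.FG Γ → Nonempty (N ≃* D) → FiniteGenus Γ) ∧
    (∀ (D : Type) [Group D], Grossman D →
      (∀ (E : Type) [Group E], InGenus E D → Subgroup.center E = ⊥) →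
      ∀ (Γ : Type) [Group Γ] (N : Subgroup Γ) [N.Normal] [N.FiniteIndex],
        Group.FG Γ → Nonempty (N ≃* D) → Subgroup.centralizer (N : Set Γ) = ⊥ →
        ∀ (Λ : Type) [Group Λ], InGenus Λ Γ →
          ∃ (E : Type) (_ : Group E), InGenus E D ∧
            ∀ (E' : Type) [Group E'], Nonempty (E' ≃* E) →
              ∃ P : Subgroup (Out E'), Nonempty (P ≃* Γ ⧸ N) ∧ Nonempty (Λ ≃* Pre P)) ∧
    (∀ (D : Type) [Group D], Group.FG D → RF D → Rigid D → Subgroup.center D = ⊥ →
      Grossman D →
      (∀ P : Subgroup (Out D), Finite P →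
        (Rigid (Pre P) ↔ ∀ P' : Subgroup (Out D), Nonempty (P' ≃* P) → SFQ (Pre P') (Pre P) →
          Nonempty (Pre P' ≃* Pre P))) ∧
      (∀ P : Subgroup (Out D), Finite P →
        (∀ P' : Subgroup (Out D), Nonempty (P' ≃* P) → ∃ α : Out D, conjSub α P' = P) →
          Rigid (Pre P)) ∧
      (Finite (Out D) → Rigid (MulAut D))) := by
  refine ⟨?_, ?_, ?_⟩
  · rintro D _ hD hgood Γ _ N _ _ hΓ ⟨e⟩
    exact finite_genus hΓ (QuotientGroup.mk' N) (QuotientGroup.mk'_surjective N)
      ((MulEquiv.subgroupCongr (QuotientGroup.ker_mk' N)).trans e) hD hgood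
  · rintro D _ hG hDc Γ _ N _ _ hΓ ⟨e⟩ hcent Λ _ hΛ
    refine genus_embeds' hΓ (QuotientGroup.mk' N) (QuotientGroup.mk'_surjective N)
      ((MulEquiv.subgroupCongr (QuotientGroup.ker_mk' N)).trans e) hDc hG ?_ hΛ
    rw [QuotientGroup.ker_mk']
    exact hcent
  · intro D _ hfg hRF hD hDc hG
    refine ⟨fun P hP => pre_rigid_iff hfg hRF hD hDc hG P hP, ?_, aut_rigid hfg hRF hD hDc hG⟩
    intro P hP hconj
    rw [pre_rigid_iff hfg hRF hD hDc hG P hP]
    intro P' hP' _
    obtain ⟨α, hα⟩ := hconj P' hP'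
    obtain ⟨e⟩ := pre_conj P' α
    rw [hα] at e
    exact ⟨e⟩

end Pool.Agent.Results.MP_305fdd_al.FiniteExtensions
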