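import Pool.Agent.Q279.PR.Genus

/-!
# Profinite rigidity of free groups: all ranks, or few groups with the same finite quotients

`MP_305fdd_al`, Q1, asks whether all lattices in `PSL(2, ℝ)` and `PSL(2, ℂ)` are profinitely rigid.
The lattices in `PSL(2, ℝ)` that are not cocompact are the free products `F_n * B` of a free group of
rank `n` and a free product `B` of finite cyclic groups (which are not finite or infinite dihedral).
Let `g(n)` be the number of isomorphism classes of finitely generated residually finite groups with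
the same finite quotients as `F_n`.

* If one free group `F_m` is not profinitely rigid, then `g(n) ≥ n / m + 1` for all `n`; more
  generally for every `n` and every finitely generated residually finite group `B` there are
  `n / m + 1` pairwise non-isomorphic such groups with the finite quotients of `F_n * B`.
* So rigidity of one lattice `F_n * B` implies that of the free groups of all ranks `m ≤ n`.
* All free groups of finite rank are profinitely rigid if and only if the infimum of `g(n) / n` is
  zero.

Proof: the finite quotients of a free product are determined by those of the factors. Let `A` be a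
group with the finite quotients of `F_m` which is not free. The largest rank of a free quotient is
additive under free products, by the theorem of Nielsen and Schreier, and it is smaller than `m` for
`A` (Hopf's argument). So it distinguishes the groups `A * ... * A * F_k * B`.
-/

set_option autoImplicit false

namespace Pool.Agent.Results.MP_305fdd_al.FreeGroupGenus

open Monoid Pool.Agent.Q279.PR

/-- `G` is a member of the genus of `H`: it is finitely generated, residually finite and has the
same finite quotients as `H` -/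
def InGenus (G H : Type) [Group G] [Group H] : Prop := Group.FG G ∧ RF G ∧ SFQ G H

/-- the genus of `H` has at most `k` members up to isomorphism -/
def GenusAtMost (H : Type) [Group H] (k : ℕ) : Prop :=
  ∀ (G : Fin (k + 1) → Type) [∀ i, Group (G i)], (∀ i, InGenus (G i) H) →
    ∃ i j, i ≠ j ∧ Nonempty (G i ≃* G j)

/-- the groups `A * ... * A * F_k * B` -/
theorem chain {A B : Type} [Group A] [Group B] {m c b : ℕ} (hA : InGenus A (FreeGroup (Fin m)))
    (hc : MaxRank A c) (hB : Group.FG B) (hR : RF B) (hb : MaxRank B b) (j k : ℕ) :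
    ∃ (G : Type) (_ : Group G), InGenus G (Coprod (FreeGroup (Fin (j * m + k))) B) ∧
      MaxRank G (j * c + k + b) := by
  induction j with
  | zero =>
    refine ⟨Coprod (FreeGroup (Fin (0 * m + k))) B, inferInstance,
      ⟨fg_coprod inferInstance hB, (rf_free _).coprod hR, SFQ.refl _⟩, ?_⟩
    have := (maxRank_free (0 * m + k)).coprod inferInstance hB hb
    simpa using this
  | succ j ih =>
    obtain ⟨G, _, ⟨h1, h2, h3⟩, h4⟩ := ih
    refine ⟨Coprod A G, inferInstance, ⟨fg_coprod hA.1 h1, hA.2.1.coprod h2, ?_⟩, ?_⟩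
    · refine (hA.2.2.coprod h3).trans ?_
      refine (SFQ.of_equiv (MulEquiv.coprodAssoc _ _ _).symm).trans ?_
      refine ((SFQ.of_equiv (freeSum m (j * m + k))).trans ?_).coprod (SFQ.refl B)
      have h : m + (j * m + k) = (j + 1) * m + k := by ring
      rw [h]
      exact SFQ.refl _
    · have := hc.coprod hA.1 h1 h4
      have h : c + (j * c + k + b) = (j + 1) * c + k + b := by ring
      rwa [h] at this

/-- a free group that is not rigid -/
theorem exists_nonfree {m : ℕ} (hm : ¬ Rigid (FreeGroup (Fin m))) :
    ∃ (A : Type) (_ : Group A) (c : ℕ), InGenus A (FreeGroup (Fin m)) ∧ MaxRank A c ∧ c < m := by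
  unfold Rigid at hm
  push Not at hm
  obtain ⟨A, _, h1, h2, h3, h4⟩ := hm
  obtain ⟨c, hc⟩ := exists_maxRank h1
  refine ⟨A, inferInstance, c, ⟨h1, h2, h3⟩, hc, ?_⟩
  by_contra h5
  obtain ⟨e⟩ := iso_of_onto h1 h2 h3 hc.1 (not_lt.mp h5)
  exact h4.false e

theorem pos_of_not_rigid {m : ℕ} (hm : ¬ Rigid (FreeGroup (Fin m))) : 0 < m := by
  obtain ⟨A, _, c, -, -, h⟩ := exists_nonfree hm
  omega

/-- the large genus -/
theorem family {m : ℕ} (hm : ¬ Rigid (FreeGroup (Fin m))) (n : ℕ) (B : Type) [Group B]
    (hB : Group.FG B) (hR : RF B) :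
    ∃ (G : Fin (n / m + 1) → Type) (_ : ∀ i, Group (G i)),
      (∀ i, InGenus (G i) (Coprod (FreeGroup (Fin n)) B)) ∧
      ∀ i j, Nonempty (G i ≃* G j) → i = j := by
  obtain ⟨A, _, c, hA, hc, hcm⟩ := exists_nonfree hm
  obtain ⟨b, hb⟩ := exists_maxRank hB
  have hle : ∀ i : Fin (n / m + 1), i.1 * m ≤ n := fun i =>
    (Nat.mul_le_mul_right m (Nat.lt_succ_iff.mp i.2)).trans (Nat.div_mul_le_self n m)
  have key : ∀ i : Fin (n / m + 1), ∃ (G : Type) (_ : Group G),
      InGenus G (Coprod (FreeGroup (Fin n)) B) ∧ MaxRank G (i.1 * c + (n - i.1 * m) + b) := by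
    intro i
    have h := chain hA hc hB hR hb i.1 (n - i.1 * m)
    rwa [Nat.add_sub_cancel' (hle i)] at h
  choose G hG h1 h2 using key
  refine ⟨G, hG, h1, ?_⟩
  rintro i j ⟨e⟩
  have h3 : i.1 * c + (n - i.1 * m) + b = j.1 * c + (n - j.1 * m) + b :=
    ((h2 i).congr e).unique (h2 j)
  have h4 := hle i
  have h5 := hle j
  have h6 : (i.1 : ℤ) * c + (n - i.1 * m) = j.1 * c + (n - j.1 * m) := by
    have h7 : i.1 * c + (n - i.1 * m) = j.1 * c + (n - j.1 * m) := by omega
    zify [h4, h5] at h7
    exact h7
  have h7 : ((i.1 : ℤ) - j.1) * ((m : ℤ) - c) = 0 := by linear_combination -h6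
  rcases mul_eq_zero.mp h7 with h8 | h8
  · apply Fin.ext; omega
  · omega

/-- **Profinite rigidity of free groups and of free products with free factors.**
(1) If the free group of rank `m` is not profinitely rigid, then for every `n` and every finitely
generated residually finite group `B` there are `n / m + 1` pairwise non-isomorphic finitely
generated residually finite groups with the same finite quotients as `F_n * B`.
(2) If `F_n * B` is profinitely rigid, where `B` is any finitely generated residually finite group,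
then `F_m` is profinitely rigid for all `m ≤ n`.
(3) All free groups of finite rank are profinitely rigid if and only if for every `m ≥ 1` there is
`n ≥ m` such that at most `n / m` groups, up to isomorphism, are finitely generated, residually finite
and have the same finite quotients as `F_n`. -/
theorem result :
    (∀ m : ℕ, ¬ Rigid (FreeGroup (Fin m)) → ∀ (n : ℕ) (B : Type) [Group B], Group.FG B → RF B →
      ∃ (G : Fin (n / m + 1) → Type) (_ : ∀ i, Group (G i)),
        (∀ i, InGenus (G i) (Coprod (FreeGroup (Fin n)) B)) ∧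
        ∀ i j, Nonempty (G i ≃* G j) → i = j) ∧
    (∀ (m n : ℕ) (B : Type) [Group B], Group.FG B → RF B → m ≤ n →
      Rigid (Coprod (FreeGroup (Fin n)) B) → Rigid (FreeGroup (Fin m))) ∧
    ((∀ m : ℕ, Rigid (FreeGroup (Fin m))) ↔
      ∀ m : ℕ, 1 ≤ m → ∃ n : ℕ, m ≤ n ∧ GenusAtMost (FreeGroup (Fin n)) (n / m)) := by
  refine ⟨fun m hm n B _ hB hR => family hm n B hB hR, ?_, ?_, ?_⟩
  · intro m n B _ hB hR hmn hrig
    by_contra hm
    have hpos := pos_of_not_rigid hm
    obtain ⟨G, _, h1, h2⟩ := family hm n B hB hR
    have h3 : 1 ≤ n / m := (Nat.one_le_div_iff hpos).mpr hmn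
    obtain ⟨e0⟩ := hrig (G ⟨0, by omega⟩) (h1 _).1 (h1 _).2.1 (h1 _).2.2
    obtain ⟨e1⟩ := hrig (G ⟨1, by omega⟩) (h1 _).1 (h1 _).2.1 (h1 _).2.2
    have h4 := h2 _ _ ⟨e0.trans e1.symm⟩
    simp at h4
  · intro h m hm
    refine ⟨m, le_rfl, ?_⟩
    intro G _ hG
    have h1 : m / m = 1 := Nat.div_self hm
    have i0 : 0 < m / m + 1 := by omega
    have i1 : 1 < m / m + 1 := by omega
    obtain ⟨e0⟩ := h m (G ⟨0, i0⟩) (hG _).1 (hG _).2.1 (hG _).2.2
    obtain ⟨e1⟩ := h m (G ⟨1, i1⟩) (hG _).1 (hG _).2.1 (hG _).2.2
    exact ⟨⟨0, i0⟩, ⟨1, i1⟩, by simp, ⟨e0.trans e1.symm⟩⟩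
  · intro h m
    by_contra hm
    have hpos := pos_of_not_rigid hm
    obtain ⟨n, hn, hG⟩ := h m hpos
    obtain ⟨G, _, h1, h2⟩ := family hm n (FreeGroup (Fin 0)) inferInstance (rf_free 0)
    obtain ⟨i, j, hij, he⟩ := hG G fun i => ⟨(h1 i).1, (h1 i).2.1,
      (h1 i).2.2.trans (SFQ.of_equiv (freeSum n 0))⟩
    exact hij (h2 i j he)

end Pool.Agent.Results.MP_305fdd_al.FreeGroupGenus
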